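import Pool.Agent.Lib.MP_56b6c1_co.Chk

/-! Bit level facts on the checker. -/

set_option autoImplicit false

namespace Pool.Agent.Lib.MP_56b6c1_co

open Finset

theorem brec {α : Type} (x y : α) (b : Bool) :
    Bool.rec (motive := fun _ => α) x y b = if b = true then y else x := by
  cases b <;> rfl

theorem tb_eq (m i : ℕ) : tb m i = m.testBit i := by
  show Nat.beq ((m >>> i) &&& 1) 1 = m.testBit i
  rw [Nat.testBit, Nat.and_comm 1, Nat.and_one_is_mod]
  rcases Nat.mod_two_eq_zero_or_one (m >>> i) with h | h <;> rw [h] <;> rfl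

theorem fs_eq (n : ℕ) : fs n = 12 * 2 ^ n := rfl

theorem dbl_bit (x n p : ℕ) : (dbl x n).testBit p =
    (x.testBit p || (decide (p ≥ 12 * 2 ^ n) && x.testBit (p - 12 * 2 ^ n))) := by
  show (x ||| (x <<< (12 * 2 ^ n))).testBit p = _
  rw [Nat.testBit_or, Nat.testBit_shiftLeft]

/-- the trace `a` with `s` bits is monochromatic for the colouring `S` -/
def Cv (a s S : ℕ) : Prop :=
  (∀ i, a.testBit i = true → S.testBit i = false) ∨
    (s = 4 ∧ ∀ i, a.testBit i = true → S.testBit i = true)

theorem split_top {S n : ℕ} (h1 : S < 2 ^ (n + 1)) (h2 : ¬ S < 2 ^ n) :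
    S - 2 ^ n < 2 ^ n ∧ S.testBit n = true ∧
      ∀ i < n, (S - 2 ^ n).testBit i = S.testBit i := by
  have h3 : S - 2 ^ n < 2 ^ n := by rw [pow_succ] at h1; omega
  have e : S = 2 ^ n + (S - 2 ^ n) := by omega
  refine ⟨h3, ?_, fun i hi => ?_⟩
  · rw [e, Nat.testBit_two_pow_add_eq, Nat.testBit_lt_two_pow h3]; rfl
  · conv_rhs => rw [e, Nat.testBit_two_pow_add_gt hi]

theorem bit4095 {p : ℕ} (h : p < 12) : (4095 : ℕ).testBit p = true := by
  have : (4095 : ℕ) = 2 ^ 12 - 1 := by norm_num
  rw [this, Nat.testBit_two_pow_sub_one]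
  simpa using h

theorem covO_bit (a n : ℕ) : ∀ p, p / 12 < 2 ^ n →
    (∀ i < n, a.testBit i = true → (p / 12).testBit i = false) → (covO a n).testBit p = true := by
  induction n with
  | zero =>
    intro p hp _
    exact bit4095 (by omega)
  | succ n ih =>
    intro p hp h
    have e : covO a (n + 1) = if a.testBit n = true then covO a n else dbl (covO a n) n := by
      rw [← tb_eq, ← brec]; rfl
    rw [e]
    by_cases h2 : p / 12 < 2 ^ n
    · have h3 := ih p h2 fun i hi => h i (by omega)
      split_ifs
      · exact h3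
      · rw [dbl_bit, h3]; rfl
    · obtain ⟨a1, a2, a3⟩ := split_top hp h2
      have a4 : ¬ a.testBit n = true := fun h4 => by
        rw [h n (by omega) h4] at a2
        exact absurd a2 (by simp)
      have a5 : (p - 12 * 2 ^ n) / 12 = p / 12 - 2 ^ n := by omega
      have a6 := ih (p - 12 * 2 ^ n) (by rw [a5]; exact a1) fun i hi h4 => by
        rw [a5, a3 i hi]; exact h i (by omega) h4
      rw [if_neg a4, dbl_bit, a6, decide_eq_true (by omega : p ≥ 12 * 2 ^ n)]
      simp

theorem covI_bit (a n : ℕ) : ∀ p, p / 12 < 2 ^ n →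
    (∀ i < n, a.testBit i = true → (p / 12).testBit i = true) → (covI a n).testBit p = true := by
  induction n with
  | zero =>
    intro p hp _
    exact bit4095 (by omega)
  | succ n ih =>
    intro p hp h
    have e : covI a (n + 1) = if a.testBit n = true then (covI a n) <<< (12 * 2 ^ n)
        else dbl (covI a n) n := by
      rw [← tb_eq, ← brec]; rfl
    rw [e]
    by_cases h2 : p / 12 < 2 ^ n
    · have h3 := ih p h2 fun i hi => h i (by omega)
      have a4 : ¬ a.testBit n = true := fun h4 => by
        have := h n (by omega) h4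
        rw [Nat.testBit_lt_two_pow h2] at this
        exact absurd this (by simp)
      rw [if_neg a4, dbl_bit, h3]; rfl
    · obtain ⟨a1, a2, a3⟩ := split_top hp h2
      have a5 : (p - 12 * 2 ^ n) / 12 = p / 12 - 2 ^ n := by omega
      have a6 := ih (p - 12 * 2 ^ n) (by rw [a5]; exact a1) fun i hi h4 => by
        rw [a5, a3 i hi]; exact h i (by omega) h4
      split_ifs
      · rw [Nat.testBit_shiftLeft, a6, decide_eq_true (by omega : p ≥ 12 * 2 ^ n)]; rfl
      · rw [dbl_bit, a6, decide_eq_true (by omega : p ≥ 12 * 2 ^ n)]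
        simp

theorem cov_bit {N a s p : ℕ} (hp : p / 12 < 2 ^ N) (h : Cv a s (p / 12)) :
    (cov N a s).testBit p = true := by
  have e : cov N a s = if Nat.beq s 4 = true then covO a N ||| covI a N else covO a N := by
    rw [← brec]; rfl
  rw [e]
  rcases h with h | ⟨h1, h⟩
  · have := covO_bit a N p hp fun i _ => h i
    split_ifs
    · rw [Nat.testBit_or, this]; rfl
    · exact this
  · rw [if_pos (by rw [h1]; rfl), Nat.testBit_or, covI_bit a N p hp fun i _ => h i]
    simp

theorem cut_bit {U c p : ℕ} (h : (cut U c).testBit p = true) :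
    U.testBit p = true ∧ c.testBit p = false := by
  have e : cut U c = U ^^^ (U &&& c) := rfl
  rw [e, Nat.testBit_xor, Nat.testBit_and] at h
  revert h
  cases U.testBit p <;> cases c.testBit p <;> simp

theorem cv_of_Cv {S : ℕ} {c : Cand} (h : Cv c.a c.s S) : cv S c = true := by
  unfold cv
  rw [brec, brec]
  rcases h with h | ⟨h1, h⟩
  · have : Nat.land c.a S = 0 := Nat.zero_of_testBit_eq_false fun i => by
      show (c.a &&& S).testBit i = false
      rw [Nat.testBit_and]
      cases hi : c.a.testBit i
      · rfl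
      · rw [h i hi]; rfl
    rw [this]; rfl
  · have : Nat.land c.a S = c.a := Nat.eq_of_testBit_eq fun i => by
      show (c.a &&& S).testBit i = _
      rw [Nat.testBit_and]
      cases hi : c.a.testBit i
      · rfl
      · rw [h i hi]; rfl
    rw [this, h1]
    simp

theorem mem_refine {N u : ℕ} {l : List Cand} {c : Cand} (h : c ∈ l) :
    c ∈ refine N u l ∧ (c.s ≠ 4 → mk N (c.a ||| 2 ^ u) (c.s + 1) ∈ refine N u l) := by
  induction l with
  | nil => cases h
  | cons d l ih =>
    have e : refine N u (d :: l) = if Nat.beq d.s 4 = true then d :: refine N u l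
        else d :: mk N (d.a ||| 2 ^ u) (d.s + 1) :: refine N u l := by
      rw [← brec]; rfl
    rw [e]
    rcases List.mem_cons.1 h with rfl | h
    · split_ifs with h4
      · exact ⟨List.mem_cons_self, fun h5 => absurd (Nat.eq_of_beq_eq_true h4) h5⟩
      · exact ⟨List.mem_cons_self, fun _ => List.mem_cons_of_mem _ List.mem_cons_self⟩
    · obtain ⟨a1, a2⟩ := ih h
      split_ifs
      · exact ⟨List.mem_cons_of_mem _ a1, fun h5 => List.mem_cons_of_mem _ (a2 h5)⟩
      · exact ⟨List.mem_cons_of_mem _ (List.mem_cons_of_mem _ a1),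
          fun h5 => List.mem_cons_of_mem _ (List.mem_cons_of_mem _ (a2 h5))⟩

theorem filt_cons (E : ℕ) (d : Cand) (l acc : List Cand) : filt E (d :: l) acc =
    if Nat.beq (d.a &&& E) 0 = true then filt E l acc
    else if Nat.beq d.a E = true then filt E l acc else d :: filt E l acc := by
  rw [← brec, ← brec]; rfl

theorem mem_filt {E : ℕ} {l acc : List Cand} {c : Cand}
    (h : (c ∈ l ∧ c.a &&& E ≠ 0 ∧ c.a ≠ E) ∨ c ∈ acc) : c ∈ filt E l acc := by
  induction l with
  | nil =>
    rcases h with ⟨h, -⟩ | h
    · cases h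
    · exact h
  | cons d l ih =>
    rw [filt_cons]
    by_cases hc : c = d ∧ c.a &&& E ≠ 0 ∧ c.a ≠ E
    · obtain ⟨rfl, h1, h2⟩ := hc
      rw [if_neg fun h => h1 (Nat.eq_of_beq_eq_true h), if_neg fun h => h2 (Nat.eq_of_beq_eq_true h)]
      exact List.mem_cons_self
    · have : c ∈ filt E l acc := ih (by
        rcases h with ⟨h, h1⟩ | h
        · rcases List.mem_cons.1 h with h | h
          · exact absurd ⟨h, h1⟩ hc
          · exact Or.inl ⟨h, h1⟩
        · exact Or.inr h)
      split_ifs
      · exact this
      · exact this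
      · exact List.mem_cons_of_mem _ this

theorem app_eq (l acc : List Cand) : app l acc = l ++ acc := by
  induction l with
  | nil => rfl
  | cons d l ih => exact congrArg (List.cons d) ih

theorem sel_eq (p : Cand → Bool) (l acc : List Cand) : sel p l acc = l.filter p ++ acc := by
  induction l with
  | nil => rfl
  | cons d l ih =>
    have e : sel p (d :: l) acc = if p d = true then d :: sel p l acc else sel p l acc := by
      rw [← brec]; rfl
    rw [e, List.filter_cons, ih]
    split_ifs <;> rfl

theorem unsel_eq (p : Cand → Bool) (l : List Cand) : unsel p l = l.filter (fun c => !p c) := by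
  induction l with
  | nil => rfl
  | cons d l ih =>
    have e : unsel p (d :: l) = if p d = true then unsel p l else d :: unsel p l := by
      rw [← brec]; rfl
    rw [e, List.filter_cons, ih]
    cases p d <;> simp

theorem allLt_iff {n : ℕ} {p : ℕ → Bool} (h : allLt n p = true) : ∀ i < n, p i = true := by
  induction n with
  | zero => intro i hi; omega
  | succ n ih =>
    have e : allLt (n + 1) p = (p n && allLt n p) := rfl
    rw [e, Bool.and_eq_true] at h
    intro i hi
    rcases Nat.lt_succ_iff_lt_or_eq.1 hi with h1 | rfl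
    · exact ih h.2 i h1
    · exact h.1

theorem memN_iff {x : ℕ} {l : List ℕ} : memN x l = true ↔ x ∈ l := by
  induction l with
  | nil => simp [memN]
  | cons y l ih =>
    have e : memN x (y :: l) = if Nat.beq x y = true then true else memN x l := by
      rw [← brec]; rfl
    rw [e, List.mem_cons, ← ih]
    split_ifs with h
    · simp [Nat.eq_of_beq_eq_true h]
    · have : x ≠ y := fun h1 => h (by rw [h1]; exact Nat.beq_refl y)
      simp [this]

theorem allN_iff {p : ℕ → Bool} {l : List ℕ} (h : allN p l = true) : ∀ x ∈ l, p x = true := by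
  induction l with
  | nil => intro x hx; cases hx
  | cons y l ih =>
    have e : allN p (y :: l) = (p y && allN p l) := rfl
    rw [e, Bool.and_eq_true] at h
    intro x hx
    rcases List.mem_cons.1 hx with rfl | hx
    · exact h.1
    · exact ih h.2 x hx

theorem img_bit (m e n j : ℕ) :
    (img m e n).testBit j = true ↔ ∃ i < n, e.testBit i = true ∧ mp m i = j := by
  induction n with
  | zero => simp [img]
  | succ n ih =>
    have e1 : img m e (n + 1) = if e.testBit n = true then img m e n ||| 2 ^ (mp m n)
        else img m e n := by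
      rw [← tb_eq, ← brec]; rfl
    rw [e1]
    split_ifs with h
    · rw [Nat.testBit_or, Bool.or_eq_true, ih, Nat.testBit_two_pow, decide_eq_true_eq]
      constructor
      · rintro (⟨i, hi, h1⟩ | h1)
        · exact ⟨i, by omega, h1⟩
        · exact ⟨n, by omega, h, h1⟩
      · rintro ⟨i, hi, h1, h2⟩
        rcases Nat.lt_succ_iff_lt_or_eq.1 hi with h3 | rfl
        · exact Or.inl ⟨i, h3, h1, h2⟩
        · exact Or.inr h2
    · rw [ih]
      constructor
      · rintro ⟨i, hi, h1⟩
        exact ⟨i, by omega, h1⟩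
      · rintro ⟨i, hi, h1, h2⟩
        rcases Nat.lt_succ_iff_lt_or_eq.1 hi with h3 | rfl
        · exact ⟨i, h3, h1, h2⟩
        · exact absurd h1 h

theorem pc_eq (a n : ℕ) : pc a n = ((range n).filter (fun i => a.testBit i = true)).card := by
  induction n with
  | zero => rfl
  | succ n ih =>
    have e1 : pc a (n + 1) = if a.testBit n = true then pc a n + 1 else pc a n := by
      rw [← tb_eq, ← brec]; rfl
    rw [e1, range_add_one, filter_insert]
    split_ifs
    · rw [card_insert_of_notMem (by simp), ih]
    · exact ih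

theorem getC_mem {L : List (ℕ × List ℕ)} : ∀ {j : ℕ} {g : ℕ × List ℕ}, getC L j = some g → g ∈ L := by
  induction L with
  | nil => intro j g h; cases h
  | cons d L ih =>
    intro j g h
    cases j with
    | zero =>
      have : some d = some g := h
      rw [Option.some.inj this]
      exact List.mem_cons_self
    | succ j => exact List.mem_cons_of_mem _ (ih (j := j) h)

/-- the 12 bit field number `S` -/
def dig (x S : ℕ) : ℕ := (x >>> (12 * S)) % 2 ^ 12

theorem dig_bit (x S r : ℕ) : (dig x S).testBit r = (decide (r < 12) && x.testBit (12 * S + r)) := by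
  unfold dig
  rw [Nat.testBit_mod_two_pow, Nat.testBit_shiftRight]

theorem modsum (x n : ℕ) : x % 2 ^ (12 * n) ≡ ∑ S ∈ range n, dig x S [MOD 4095] := by
  induction n with
  | zero => simp [Nat.mod_one, Nat.ModEq]
  | succ n ih =>
    rw [sum_range_succ, Nat.mul_succ, pow_add, Nat.mod_mul]
    refine Nat.ModEq.add ih ?_
    have h1 : 2 ^ (12 * n) ≡ 1 [MOD 4095] := by
      rw [pow_mul]
      have : (2 : ℕ) ^ 12 ≡ 1 [MOD 4095] := by decide
      simpa using this.pow n
    have h2 := h1.mul_right (x / 2 ^ (12 * n) % 2 ^ 12)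
    rw [one_mul] at h2
    unfold dig
    rw [Nat.shiftRight_eq_div_pow]
    exact h2

theorem mod_eq_sum {x n : ℕ} (hx : x < 2 ^ (12 * n)) (hs : ∑ S ∈ range n, dig x S ≤ 4094) :
    x % 4095 = ∑ S ∈ range n, dig x S := by
  have h := modsum x n
  rw [Nat.mod_eq_of_lt hx] at h
  unfold Nat.ModEq at h
  rw [h, Nat.mod_eq_of_lt (by omega)]

theorem dig_and (x y S : ℕ) : dig (x &&& y) S = dig x S &&& dig y S :=
  Nat.eq_of_testBit_eq fun r => by
    rw [Nat.testBit_and, dig_bit, dig_bit, dig_bit, Nat.testBit_and]
    cases decide (r < 12) <;> simp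

theorem dig_or (x y S : ℕ) : dig (x ||| y) S = dig x S ||| dig y S :=
  Nat.eq_of_testBit_eq fun r => by
    rw [Nat.testBit_or, dig_bit, dig_bit, dig_bit, Nat.testBit_or]
    cases decide (r < 12) <;> simp

theorem dig_and_le (x y S : ℕ) : dig (x &&& y) S ≤ dig x S := by
  rw [dig_and]; exact Nat.and_le_left

theorem dig_and_eq {x y S : ℕ} (h : ∀ r < 12, y.testBit (12 * S + r) = true) :
    dig (x &&& y) S = dig x S :=
  Nat.eq_of_testBit_eq fun r => by
    rw [dig_bit, dig_bit, Nat.testBit_and]
    by_cases hr : r < 12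
    · rw [h r hr]; simp
    · simp [hr]

theorem or_le_add' (a : ℕ) : ∀ b, a ||| b ≤ a + b := by
  induction a using Nat.strong_induction_on with
  | _ a ih =>
    intro b
    rcases Nat.eq_zero_or_pos a with rfl | ha
    · simp
    · have h1 := ih (a / 2) (by omega) (b / 2)
      rw [← Nat.or_div_two] at h1
      have h2 := @Nat.or_mod_two_eq_one a b
      omega

theorem dig_shift {w T S : ℕ} (hw : w < 2 ^ 12) :
    dig (w <<< (12 * T)) S = if S = T then w else 0 :=
  Nat.eq_of_testBit_eq fun r => by
    rw [dig_bit, Nat.testBit_shiftLeft]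
    have hb : ∀ j, 12 ≤ j → w.testBit j = false := fun j hj =>
      Nat.testBit_lt_two_pow (lt_of_lt_of_le hw (Nat.pow_le_pow_right (by norm_num) hj))
    split_ifs with h
    · subst h
      by_cases hr : r < 12
      · simp [hr]
      · simp [hr, hb r (by omega)]
    · by_cases hr : r < 12
      · by_cases h2 : 12 * S + r ≥ 12 * T
        · simp [hb (12 * S + r - 12 * T) (by omega)]
        · simp [h2]
      · simp [hr]

theorem dec_sum (ws m n : ℕ) : ∑ S ∈ range m, dig (decW ws n) S ≤ decT ws n := by
  induction n with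
  | zero =>
    have : ∀ S, dig (decW ws 0) S = 0 := fun S => by
      show dig 0 S = 0
      simp [dig]
    simp [this]
  | succ n ih =>
    have e1 : decW ws (n + 1) = decW ws n ||| (((ws >>> (24 * n)) &&& 255) <<<
      (12 * ((ws >>> (24 * n + 8)) &&& 65535))) := rfl
    have e2 : decT ws (n + 1) = decT ws n + ((ws >>> (24 * n)) &&& 255) := rfl
    have hw : (ws >>> (24 * n)) &&& 255 < 2 ^ 12 :=
      lt_of_le_of_lt Nat.and_le_right (by norm_num)
    rw [e1, e2]
    refine le_trans (sum_le_sum (g := fun S => dig (decW ws n) S +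
      if S = (ws >>> (24 * n + 8)) &&& 65535 then (ws >>> (24 * n)) &&& 255 else 0) fun S _ => by
      rw [dig_or, dig_shift hw]; exact or_le_add' _ _) ?_
    rw [sum_add_distrib, sum_ite_eq']
    split_ifs <;> omega

end Pool.Agent.Lib.MP_56b6c1_co
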