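import Mathlib

/-! A certificate checker for the search over intersecting families of 4-sets. -/

set_option autoImplicit false

namespace Pool.Agent.Lib.MP_56b6c1_co

/-- a candidate trace: bit mask, number of bits, covered colourings (12 bit fields) -/
structure Cand where
  a : Nat
  s : Nat
  c : Nat

/-- certificates -/
inductive T where
  | nil : T
  | leaf : Nat → Nat → Nat → T
  | forb : Nat → Nat → T
  | brn : Nat → T → T
  | pick : Nat → T → T
  | cons : T → T → T

noncomputable section

def tb (m i : Nat) : Bool := Nat.beq (Nat.land (Nat.shiftRight m i) 1) 1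

def fs (n : Nat) : Nat := Nat.mul 12 (Nat.pow 2 n)

def dbl (x n : Nat) : Nat := Nat.lor x (Nat.shiftLeft x (fs n))

def covO (a n : Nat) : Nat :=
  Nat.rec (motive := fun _ => Nat) 4095
    (fun i ih => Bool.rec (motive := fun _ => Nat) (dbl ih i) ih (tb a i)) n

def covI (a n : Nat) : Nat :=
  Nat.rec (motive := fun _ => Nat) 4095
    (fun i ih => Bool.rec (motive := fun _ => Nat) (dbl ih i) (Nat.shiftLeft ih (fs i)) (tb a i)) n

def cov (N a s : Nat) : Nat :=
  Bool.rec (motive := fun _ => Nat) (covO a N) (Nat.lor (covO a N) (covI a N)) (Nat.beq s 4)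

def mk (N a s : Nat) : Cand := ⟨a, s, cov N a s⟩

def refine (N u : Nat) (l : List Cand) : List Cand :=
  List.rec (motive := fun _ => List Cand) []
    (fun c _ ih => Bool.rec (motive := fun _ => List Cand)
      (c :: mk N (Nat.lor c.a (Nat.pow 2 u)) (Nat.succ c.s) :: ih) (c :: ih) (Nat.beq c.s 4)) l

def filt (E : Nat) (l acc : List Cand) : List Cand :=
  List.rec (motive := fun _ => List Cand) acc
    (fun c _ ih => Bool.rec (motive := fun _ => List Cand)
      (Bool.rec (motive := fun _ => List Cand) (c :: ih) ih (Nat.beq c.a E)) ih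
      (Nat.beq (Nat.land c.a E) 0)) l

def app (l acc : List Cand) : List Cand :=
  List.rec (motive := fun _ => List Cand) acc (fun c _ ih => c :: ih) l

def cv (S : Nat) (c : Cand) : Bool :=
  Bool.rec (motive := fun _ => Bool)
    (Bool.rec (motive := fun _ => Bool) false (Nat.beq c.s 4) (Nat.beq (Nat.land c.a S) c.a)) true
    (Nat.beq (Nat.land c.a S) 0)

def sel (p : Cand → Bool) (l acc : List Cand) : List Cand :=
  List.rec (motive := fun _ => List Cand) acc
    (fun c _ ih => Bool.rec (motive := fun _ => List Cand) ih (c :: ih) (p c)) l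

def unsel (p : Cand → Bool) (l : List Cand) : List Cand :=
  List.rec (motive := fun _ => List Cand) []
    (fun c _ ih => Bool.rec (motive := fun _ => List Cand) (c :: ih) ih (p c)) l

def growU (u U n : Nat) : Nat :=
  Nat.rec (motive := fun _ => Nat) U (fun i ih => dbl ih (Nat.add u i)) n

def growC (N u : Nat) (l : List Cand) (n : Nat) : List Cand :=
  Nat.rec (motive := fun _ => List Cand) l (fun i ih => refine N (Nat.add u i) ih) n

def growA (u a n : Nat) : Nat :=
  Nat.rec (motive := fun _ => Nat) a (fun i ih => Nat.lor ih (Nat.pow 2 (Nat.add u i))) n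

def cut (U c : Nat) : Nat := Nat.xor U (Nat.land U c)

def decW (ws n : Nat) : Nat :=
  Nat.rec (motive := fun _ => Nat) 0
    (fun i ih => Nat.lor ih (Nat.shiftLeft (Nat.land (Nat.shiftRight ws (Nat.mul 24 i)) 255)
      (Nat.mul 12 (Nat.land (Nat.shiftRight ws (Nat.add (Nat.mul 24 i) 8)) 65535)))) n

def decT (ws n : Nat) : Nat :=
  Nat.rec (motive := fun _ => Nat) 0
    (fun i ih => Nat.add ih (Nat.land (Nat.shiftRight ws (Nat.mul 24 i)) 255)) n

def exc (W th k : Nat) (l : List Cand) : Nat :=
  List.rec (motive := fun _ => Nat) 0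
    (fun c _ ih => Nat.add (Bool.rec (motive := fun _ => Nat)
      (Nat.mul k (Nat.sub (Nat.mod (Nat.land W c.c) 4095) th))
      (Nat.sub (Nat.mod (Nat.land W c.c) 4095) th) (Nat.beq c.s 4)) ih) l

def leafOk (N u U k : Nat) (l : List Cand) (th W tot : Nat) : Bool :=
  Nat.ble u N && (Nat.ble tot 4094 && (Nat.beq (Nat.land W U) W &&
    Nat.ble (Nat.succ (Nat.add (Nat.mul k th) (exc W th k l))) (Nat.mod W 4095)))

def allLt (n : Nat) (p : Nat → Bool) : Bool :=
  Nat.rec (motive := fun _ => Bool) true (fun i ih => p i && ih) n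

def memN (x : Nat) (l : List Nat) : Bool :=
  List.rec (motive := fun _ => Bool) false
    (fun y _ ih => Bool.rec (motive := fun _ => Bool) ih true (Nat.beq x y)) l

def allN (p : Nat → Bool) (l : List Nat) : Bool :=
  List.rec (motive := fun _ => Bool) true (fun y _ ih => p y && ih) l

def mp (m i : Nat) : Nat := Nat.land (Nat.shiftRight m (Nat.mul 4 i)) 15

/-- image of a mask on `[n]` under the map coded by `m` -/
def img (m e n : Nat) : Nat :=
  Nat.rec (motive := fun _ => Nat) 0
    (fun i ih => Bool.rec (motive := fun _ => Nat) ih (Nat.lor ih (Nat.pow 2 (mp m i))) (tb e i)) n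

def injOk (m u n : Nat) : Bool :=
  allLt n fun i => Nat.ble (Nat.succ (mp m i)) u &&
    allLt i fun j => !(Nat.beq (mp m i) (mp m j))

def forbOk (g : Nat × List Nat) (m u : Nat) (F : List Nat) : Bool :=
  injOk m u g.1 && allN (fun e => memN (img m e g.1) F) g.2

def isNil (l : List Cand) : Bool := List.rec (motive := fun _ => Bool) true (fun _ _ _ => false) l

def getC (L : List (Nat × List Nat)) : Nat → Option (Nat × List Nat) :=
  List.rec (motive := fun _ => Nat → Option (Nat × List Nat)) (fun _ => none)
    (fun g _ ih j => Nat.rec (motive := fun _ => Option (Nat × List Nat)) (some g)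
      (fun i _ => ih i) j) L

def chk (L : List (Nat × List Nat)) (N : Nat) (t : T) :
    Nat → List Nat → Nat → Nat → List Cand → List Cand → Bool → Bool :=
  T.rec (motive := fun _ => Nat → List Nat → Nat → Nat → List Cand → List Cand → Bool → Bool)
    (fun _ _ _ _ br _ fl => fl && isNil br)
    (fun th n ws u _ U k br rest _ => isNil br && leafOk N u U k rest th (decW ws n) (decT ws n))
    (fun j m u F _ _ _ _ _ => Option.rec (motive := fun _ => Bool) false
      (fun g => forbOk g m u F) (getC L j))
    (fun S _ ih u F U k br rest _ => Nat.ble u N && (tb U (Nat.mul 12 S) &&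
      ih u F U k (sel (cv S) rest br) (unsel (cv S) rest) true))
    (fun P _ ih u F U k br rest fl =>
      ih u F U k (sel (fun c => tb P c.a) rest br) (unsel (fun c => tb P c.a) rest) fl)
    (fun _ _ ih1 ih2 u F U k br rest fl => List.rec (motive := fun _ => Bool) false
      (fun c br' _ => Bool.rec (motive := fun _ => Bool)
        (ih1 (Nat.add u (Nat.sub 4 c.s)) (growA u c.a (Nat.sub 4 c.s) :: F)
          (cut (growU u U (Nat.sub 4 c.s)) (cov N (growA u c.a (Nat.sub 4 c.s)) 4)) (Nat.pred k) []
          (filt (growA u c.a (Nat.sub 4 c.s)) (growC N u (app br rest) (Nat.sub 4 c.s)) []) false)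
        (ih1 u (c.a :: F) (cut U c.c) (Nat.pred k) [] (filt c.a br' (filt c.a rest [])) false)
        (Nat.beq c.s 4) && ih2 u F U k br' rest fl) br) t

def pc (a n : Nat) : Nat :=
  Nat.rec (motive := fun _ => Nat) 0
    (fun i ih => Bool.rec (motive := fun _ => Nat) ih (Nat.succ ih) (tb a i)) n

def initU (N u : Nat) (F : List Nat) : Nat :=
  List.rec (motive := fun _ => Nat) (growU 0 4095 u) (fun e _ ih => cut ih (cov N e 4)) F

def initC (N u : Nat) (F : List Nat) : List Cand :=
  List.rec (motive := fun _ => List Cand) (growC N 0 [mk N 0 0] u) (fun e _ ih => filt e ih []) F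

def initK (F : List Nat) : Nat :=
  List.rec (motive := fun _ => Nat) 24 (fun _ _ ih => Nat.pred ih) F

def initOk (u : Nat) (F : List Nat) : Bool :=
  List.rec (motive := fun _ => Bool) true
    (fun e l ih => Nat.ble (Nat.succ e) (Nat.pow 2 u) && (Nat.beq (pc e u) 4 &&
      (!(memN e l) && ih))) F

def top (L : List (Nat × List Nat)) (N : Nat) (g : Nat × List Nat) (t : T) : Bool :=
  initOk g.1 g.2 && chk L N t g.1 g.2 (initU N g.1 g.2) (initK g.2) [] (initC N g.1 g.2) false

end

end Pool.Agent.Lib.MP_56b6c1_co
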