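import Mathlib

/-!
Property B, intersecting families and minimum families. Vertices are natural numbers; a finite
family of finite sets is a `Finset (Finset ℕ)`.
-/

namespace Pool.Agent.Lib.MP_56b6c1_co

/-- Every edge of `F` has exactly `n` elements. -/
def Uniform (n : ℕ) (F : Finset (Finset ℕ)) : Prop := ∀ e ∈ F, e.card = n

/-- Property B: there is a set `S` of vertices such that every edge of `F` has a vertex in `S`
and a vertex outside `S` (a 2-colouring with no monochromatic edge). -/
def PropertyB (F : Finset (Finset ℕ)) : Prop :=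
  ∃ S : Set ℕ, ∀ e ∈ F, (∃ x ∈ e, x ∈ S) ∧ ∃ x ∈ e, x ∉ S

/-- Every two edges of `F` have a common vertex. -/
def Intersecting (F : Finset (Finset ℕ)) : Prop := ∀ e ∈ F, ∀ f ∈ F, ∃ x, x ∈ e ∧ x ∈ f

/-- `F` is a minimum family for `n`: a family of `n`-sets without property B with the least
possible number of edges. -/
def IsMinimum (n : ℕ) (F : Finset (Finset ℕ)) : Prop :=
  Uniform n F ∧ ¬ PropertyB F ∧
    ∀ G : Finset (Finset ℕ), Uniform n G → ¬ PropertyB G → F.card ≤ G.card

end Pool.Agent.Lib.MP_56b6c1_co
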