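import Pool.Agent.Lib.MP_56b6c1_co.St

/-! The two explicit families: 23 edges on 11 points, and 25 pairwise meeting edges on 10. -/

namespace Pool.Agent.Lib.MP_56b6c1_co

namespace Ex

/-- `p` holds for all Boolean lists of length `k`. -/
def allB : ℕ → (List Bool → Bool) → Bool
  | 0, p => p []
  | k + 1, p => allB k (fun l => p (true :: l)) && allB k (fun l => p (false :: l))

theorem allB_spec : ∀ (k : ℕ) (p : List Bool → Bool), allB k p = true →
    ∀ l : List Bool, l.length = k → p l = true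
  | 0, p, h, l, hl => by
    rw [List.length_eq_zero_iff] at hl
    subst hl
    exact h
  | k + 1, p, h, l, hl => by
    rw [allB, Bool.and_eq_true] at h
    cases l with
    | nil => simp at hl
    | cons b l =>
      have hl' : l.length = k := by simpa using hl
      cases b with
      | true => exact allB_spec k _ h.1 l hl'
      | false => exact allB_spec k _ h.2 l hl'

/-- some edge of `L` is monochromatic under the colouring `l` -/
def mono (L : List (List ℕ)) (l : List Bool) : Bool :=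
  L.any fun e => e.all (fun x => l.getD x false) || e.all (fun x => !l.getD x false)

/-- the family with edge list `L` -/
def fam (L : List (List ℕ)) : Finset (Finset ℕ) := (L.map List.toFinset).toFinset

theorem mem_fam {L : List (List ℕ)} {s : Finset ℕ} :
    s ∈ fam L ↔ ∃ e ∈ L, e.toFinset = s := by
  simp [fam]

theorem notB (V : ℕ) (L : List (List ℕ)) (hV : ∀ e ∈ L, ∀ x ∈ e, x < V)
    (h : allB V (mono L) = true) : ¬ PropertyB (fam L) := by
  classical
  rintro ⟨S, hS⟩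
  have key := allB_spec V _ h ((List.range V).map fun x => decide (x ∈ S)) (by simp)
  have hget : ∀ x, x < V →
      ((List.range V).map fun x => decide (x ∈ S)).getD x false = decide (x ∈ S) := by
    intro x hx
    simp [List.getD_eq_getElem?_getD, hx]
  rw [mono, List.any_eq_true] at key
  obtain ⟨e, he, hm⟩ := key
  obtain ⟨⟨x, hx, hxS⟩, y, hy, hyS⟩ := hS _ (mem_fam.2 ⟨e, he, rfl⟩)
  rw [List.mem_toFinset] at hx hy
  rw [Bool.or_eq_true, List.all_eq_true, List.all_eq_true] at hm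
  rcases hm with hm | hm
  · have := hm y hy
    rw [hget y (hV e he y hy)] at this
    exact hyS (of_decide_eq_true this)
  · have := hm x hx
    rw [hget x (hV e he x hx)] at this
    simp [hxS] at this

theorem unif (L : List (List ℕ)) (h : ∀ e ∈ L, e.toFinset.card = 4) : Uniform 4 (fam L) := by
  intro s hs
  obtain ⟨e, he, rfl⟩ := mem_fam.1 hs
  exact h e he

theorem inter (L : List (List ℕ)) (h : ∀ e ∈ L, ∀ f ∈ L, ∃ x ∈ e, x ∈ f) :
    Intersecting (fam L) := by
  intro s hs t ht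
  obtain ⟨e, he, rfl⟩ := mem_fam.1 hs
  obtain ⟨f, hf, rfl⟩ := mem_fam.1 ht
  obtain ⟨x, hx, hx'⟩ := h e he f hf
  exact ⟨x, List.mem_toFinset.2 hx, List.mem_toFinset.2 hx'⟩

/-- triangle `0 1 2`, pairs `3 4`, `5 6`, `7 8`, `9 10` -/
def L23 : List (List ℕ) :=
  [[0, 1, 3, 4], [0, 2, 3, 4], [1, 2, 3, 4], [0, 1, 5, 6], [0, 2, 5, 6],
   [1, 2, 5, 6], [0, 1, 7, 8], [0, 2, 7, 8], [1, 2, 7, 8], [0, 1, 9, 10],
   [0, 2, 9, 10], [1, 2, 9, 10], [3, 5, 7, 9], [3, 5, 8, 10], [3, 6, 7, 10],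
   [3, 6, 8, 9], [3, 6, 8, 10], [4, 5, 7, 10], [4, 5, 8, 9], [4, 5, 8, 10],
   [4, 6, 7, 9], [4, 6, 7, 10], [4, 6, 8, 9]]

def L25 : List (List ℕ) :=
  [[0, 1, 2, 3], [0, 4, 5, 6], [3, 6, 7, 8], [1, 2, 4, 6], [3, 6, 8, 9],
   [0, 4, 8, 9], [2, 3, 6, 8], [2, 4, 7, 9], [3, 4, 6, 8], [1, 5, 7, 8],
   [1, 2, 6, 9], [3, 4, 5, 9], [0, 2, 5, 6], [1, 2, 5, 8], [0, 5, 6, 7],
   [0, 1, 4, 8], [0, 2, 3, 7], [1, 3, 4, 5], [0, 1, 8, 9], [0, 5, 6, 9],
   [1, 3, 5, 9], [0, 1, 3, 7], [2, 5, 7, 8], [1, 6, 7, 9], [1, 4, 6, 7]]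

end Ex

/-- File Ex.lean. The Seymour / Toft family: triangle x y z, pairs a_i b_i (i < 4), 12 edges
{a_i, b_i} + side of the triangle, 11 of the 16 transversals of the pairs. -/
theorem ex23 : ∃ F : Finset (Finset ℕ), Uniform 4 F ∧ ¬ PropertyB F ∧ F.card = 23 :=
  ⟨Ex.fam Ex.L23, Ex.unif _ (by decide +kernel),
    Ex.notB 11 _ (by decide +kernel) (by decide +kernel), by decide +kernel⟩

/-- File Ex.lean. A family of 25 pairwise meeting edges on 10 points. -/
theorem ex25 : ∃ F : Finset (Finset ℕ),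
    Uniform 4 F ∧ Intersecting F ∧ ¬ PropertyB F ∧ F.card = 25 :=
  ⟨Ex.fam Ex.L25, Ex.unif _ (by decide +kernel), Ex.inter _ (by decide +kernel),
    Ex.notB 10 _ (by decide +kernel) (by decide +kernel), by decide +kernel⟩

end Pool.Agent.Lib.MP_56b6c1_co
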