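import Pool.Agent.Lib.MP_56b6c1_co.Bits
import Pool.Agent.Lib.MP_56b6c1_co.Defs

/-! Soundness of the checker. -/

set_option autoImplicit false

namespace Pool.Agent.Lib.MP_56b6c1_co

open Finset

def Hyp (G : Finset (Finset ℕ)) : Prop := Uniform 4 G ∧ Intersecting G ∧ G.card ≤ 24

/-- `a` is the trace of `E` on the first `u` labelled vertices -/
def Tr (φ : ℕ → ℕ) (u : ℕ) (E : Finset ℕ) (a : ℕ) : Prop :=
  ∀ i, a.testBit i = true ↔ (i < u ∧ φ i ∈ E)

def sz (φ : ℕ → ℕ) (u : ℕ) (E : Finset ℕ) : ℕ := ((range u).filter (fun i => φ i ∈ E)).card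

def Inj (φ : ℕ → ℕ) (u : ℕ) : Prop := ∀ i < u, ∀ j < u, φ i = φ j → i = j

def Dead (g : ℕ × List ℕ) : Prop :=
  ∀ G, Hyp G → ∀ φ : ℕ → ℕ, Inj φ g.1 →
    (∀ e ∈ g.2, ∃ E ∈ G, ∀ i < g.1, (e.testBit i = true ↔ φ i ∈ E)) → PropertyB G

def AllDead : List (ℕ × List ℕ) → Prop
  | [] => True
  | g :: l => Dead g ∧ AllDead l

theorem AllDead.mem {L : List (ℕ × List ℕ)} (h : AllDead L) {g : ℕ × List ℕ} (hg : g ∈ L) :
    Dead g := by
  induction L with
  | nil => cases hg
  | cons d L ih =>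
    rcases List.mem_cons.1 hg with rfl | hg
    · exact h.1
    · exact ih h.2 hg

def Mt (N : ℕ) (φ : ℕ → ℕ) (u : ℕ) (E : Finset ℕ) (c : Cand) : Prop :=
  Tr φ u E c.a ∧ c.s = sz φ u E ∧ c.c = cov N c.a c.s

structure Inv (N : ℕ) (G : Finset (Finset ℕ)) (φ : ℕ → ℕ) (u : ℕ) (F : List ℕ) (U k : ℕ)
    (R : Finset (Finset ℕ)) (C : List Cand) : Prop where
  inj : Inj φ u
  ed : ∀ e ∈ F, ∃ E ∈ G, Tr φ u E e ∧ sz φ u E = 4
  spl : ∀ E ∈ G, E ∈ R ∨ ∃ e ∈ F, Tr φ u E e ∧ sz φ u E = 4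
  sub : ∀ E ∈ R, E ∈ G
  cd : R.card ≤ k
  mt : ∀ E ∈ R, ∃ c ∈ C, Mt N φ u E c
  un : u ≤ N → ∀ p, U.testBit p = true → p / 12 < 2 ^ u ∧ ∀ e ∈ F, ¬ Cv e 4 (p / 12)

variable {N u U k : ℕ} {G R : Finset (Finset ℕ)} {φ : ℕ → ℕ} {F : List ℕ} {C : List Cand}

theorem card_img (h : Inj φ u) (E : Finset ℕ) :
    (((range u).filter (fun i => φ i ∈ E)).image φ).card = sz φ u E :=
  card_image_of_injOn fun i hi j hj e =>
    h i (mem_range.1 (mem_filter.1 (mem_coe.1 hi)).1) j
      (mem_range.1 (mem_filter.1 (mem_coe.1 hj)).1) e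

theorem img_sub (E : Finset ℕ) : ((range u).filter (fun i => φ i ∈ E)).image φ ⊆ E := by
  intro v hv
  obtain ⟨i, hi, rfl⟩ := mem_image.1 hv
  exact (mem_filter.1 hi).2

theorem sz_le (h : Inj φ u) (E : Finset ℕ) : sz φ u E ≤ E.card := by
  rw [← card_img h]
  exact card_le_card (img_sub E)

theorem full_mem (h : Inj φ u) {E : Finset ℕ} (hs : sz φ u E = E.card) :
    ∀ v ∈ E, ∃ i < u, φ i = v := by
  intro v hv
  have e := eq_of_subset_of_card_le (img_sub (φ := φ) (u := u) E) (by rw [card_img h, hs])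
  rw [← e] at hv
  obtain ⟨i, hi, h1⟩ := mem_image.1 hv
  exact ⟨i, mem_range.1 (mem_filter.1 hi).1, h1⟩

theorem exists_new {E : Finset ℕ} (hs : sz φ u E < E.card) : ∃ v ∈ E, ∀ i < u, φ i ≠ v := by
  by_contra hc
  push Not at hc
  have : E ⊆ ((range u).filter (fun i => φ i ∈ E)).image φ := fun v hv => by
    obtain ⟨i, hi, h1⟩ := hc v hv
    exact mem_image.2 ⟨i, mem_filter.2 ⟨mem_range.2 hi, h1 ▸ hv⟩, h1⟩
  have h2 := (card_le_card this).trans card_image_le
  unfold sz at hs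
  omega

theorem sz_succ (E : Finset ℕ) : sz φ (u + 1) E = if φ u ∈ E then sz φ u E + 1 else sz φ u E := by
  unfold sz
  rw [range_add_one, filter_insert]
  split_ifs
  · rw [card_insert_of_notMem (by simp)]
  · rfl

theorem tr_out {E : Finset ℕ} {a : ℕ} (h : Tr φ u E a) (hn : φ u ∉ E) : Tr φ (u + 1) E a := by
  intro i
  rw [h i]
  constructor
  · rintro ⟨h1, h2⟩
    exact ⟨by omega, h2⟩
  · rintro ⟨h1, h2⟩
    rcases Nat.lt_succ_iff_lt_or_eq.1 h1 with h3 | rfl
    · exact ⟨h3, h2⟩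
    · exact absurd h2 hn

theorem tr_in {E : Finset ℕ} {a : ℕ} (h : Tr φ u E a) (hn : φ u ∈ E) :
    Tr φ (u + 1) E (a ||| 2 ^ u) := by
  intro i
  rw [Nat.testBit_or, Bool.or_eq_true, h i, Nat.testBit_two_pow, decide_eq_true_eq]
  constructor
  · rintro (⟨h1, h2⟩ | rfl)
    · exact ⟨by omega, h2⟩
    · exact ⟨by omega, hn⟩
  · rintro ⟨h1, h2⟩
    rcases Nat.lt_succ_iff_lt_or_eq.1 h1 with h3 | rfl
    · exact Or.inl ⟨h3, h2⟩
    · exact Or.inr rfl

theorem full_step (hi : Inj φ (u + 1)) {E : Finset ℕ} {e : ℕ} (hc : E.card = 4)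
    (h : Tr φ u E e ∧ sz φ u E = 4) : Tr φ (u + 1) E e ∧ sz φ (u + 1) E = 4 := by
  have h1 := sz_le hi E
  have h2 := sz_succ (φ := φ) (u := u) E
  have hn : φ u ∉ E := fun h3 => by
    rw [if_pos h3] at h2
    omega
  rw [if_neg hn] at h2
  exact ⟨tr_out h.1 hn, by omega⟩

theorem Inv.refine (hG : Hyp G) (h : Inv N G φ u F U k R C) (hi : Inj φ (u + 1)) :
    Inv N G φ (u + 1) F (dbl U u) k R (refine N u C) := by
  refine ⟨hi, fun e he => ?_, fun E hE => ?_, h.sub, h.cd, fun E hE => ?_, fun hu p hp => ?_⟩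
  · obtain ⟨E, hE, h1⟩ := h.ed e he
    exact ⟨E, hE, full_step hi (hG.1 E hE) h1⟩
  · rcases h.spl E hE with h1 | ⟨e, he, h1⟩
    · exact Or.inl h1
    · exact Or.inr ⟨e, he, full_step hi (hG.1 E hE) h1⟩
  · obtain ⟨c, hc, h1, h2, h3⟩ := h.mt E hE
    have h4 := sz_succ (φ := φ) (u := u) E
    by_cases hn : φ u ∈ E
    · rw [if_pos hn] at h4
      have h5 := sz_le hi E
      rw [hG.1 E (h.sub E hE)] at h5
      exact ⟨_, (mem_refine hc).2 (by omega), tr_in h1 hn, by rw [h4, ← h2]; rfl, rfl⟩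
    · rw [if_neg hn] at h4
      exact ⟨c, (mem_refine hc).1, tr_out h1 hn, by rw [h4, h2], h3⟩
  · rw [dbl_bit, Bool.or_eq_true, Bool.and_eq_true, decide_eq_true_eq] at hp
    rcases hp with hp | ⟨h1, hp⟩
    · obtain ⟨a1, a2⟩ := h.un (by omega) p hp
      exact ⟨by rw [pow_succ]; omega, a2⟩
    · obtain ⟨a1, a2⟩ := h.un (by omega) _ hp
      have a3 : (p - 12 * 2 ^ u) / 12 = p / 12 - 2 ^ u := by omega
      have a4 : p / 12 < 2 ^ (u + 1) := by rw [pow_succ]; omega
      obtain ⟨-, -, a5⟩ := split_top a4 (by omega)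
      refine ⟨a4, fun e he hc => a2 e he ?_⟩
      obtain ⟨E, -, h2, -⟩ := h.ed e he
      rw [a3]
      rcases hc with hc | ⟨h3, hc⟩
      · exact Or.inl fun i hi' => by rw [a5 i ((h2 i).1 hi').1]; exact hc i hi'
      · exact Or.inr ⟨h3, fun i hi' => by rw [a5 i ((h2 i).1 hi').1]; exact hc i hi'⟩

theorem tr_congr {ψ : ℕ → ℕ} (e : ∀ i < u, ψ i = φ i) {E : Finset ℕ} {a : ℕ} (h : Tr φ u E a) :
    Tr ψ u E a := by
  intro i
  rw [h i]
  exact ⟨fun h1 => ⟨h1.1, by rw [e i h1.1]; exact h1.2⟩,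
    fun h1 => ⟨h1.1, by rw [← e i h1.1]; exact h1.2⟩⟩

theorem sz_congr {ψ : ℕ → ℕ} (e : ∀ i < u, ψ i = φ i) (E : Finset ℕ) : sz ψ u E = sz φ u E := by
  unfold sz
  rw [filter_congr fun i hi => by rw [e i (mem_range.1 hi)]]

theorem Inv.congr {ψ : ℕ → ℕ} (e : ∀ i < u, ψ i = φ i) (h : Inv N G φ u F U k R C) :
    Inv N G ψ u F U k R C := by
  refine ⟨fun i hi j hj h1 => h.inj i hi j hj (by rw [← e i hi, ← e j hj, h1]), fun a ha => ?_,
    fun E hE => ?_, h.sub, h.cd, fun E hE => ?_, h.un⟩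
  · obtain ⟨E, hE, h1, h2⟩ := h.ed a ha
    exact ⟨E, hE, tr_congr e h1, by rw [sz_congr e, h2]⟩
  · rcases h.spl E hE with h1 | ⟨a, ha, h1, h2⟩
    · exact Or.inl h1
    · exact Or.inr ⟨a, ha, tr_congr e h1, by rw [sz_congr e, h2]⟩
  · obtain ⟨c, hc, h1, h2, h3⟩ := h.mt E hE
    exact ⟨c, hc, tr_congr e h1, by rw [sz_congr e, h2], h3⟩

theorem Inv.mono {C' : List Cand} (h : Inv N G φ u F U k R C)
    (hC : ∀ E ∈ R, ∀ c ∈ C, Mt N φ u E c → c ∈ C') : Inv N G φ u F U k R C' :=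
  ⟨h.inj, h.ed, h.spl, h.sub, h.cd, fun E hE => by
    obtain ⟨c, hc, h1⟩ := h.mt E hE
    exact ⟨c, hC E hE c hc h1, h1⟩, h.un⟩

theorem Inv.grow (hG : Hyp G) (h : Inv N G φ u F U k R C) {E : Finset ℕ} (hE : E ∈ G) {a : ℕ}
    (ha : Tr φ u E a) (n : ℕ) (hn : sz φ u E + n ≤ 4) :
    ∃ ψ, Inv N G ψ (u + n) F (growU u U n) k R (growC N u C n) ∧ Tr ψ (u + n) E (growA u a n) ∧
      sz ψ (u + n) E = sz φ u E + n := by
  induction n with
  | zero => exact ⟨φ, h, ha, rfl⟩
  | succ n ih =>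
    obtain ⟨ψ, h1, h2, h3⟩ := ih (by omega)
    obtain ⟨v, hv, hnew⟩ := exists_new (φ := ψ) (u := u + n) (E := E) (by rw [hG.1 E hE]; omega)
    have e : ∀ i < u + n, Function.update ψ (u + n) v i = ψ i := fun i hi =>
      Function.update_of_ne (by omega) _ _
    have e2 : Function.update ψ (u + n) v (u + n) = v := Function.update_self _ _ _
    have hi : Inj (Function.update ψ (u + n) v) (u + n + 1) := by
      intro i hi j hj h4
      rcases Nat.lt_succ_iff_lt_or_eq.1 hi with a1 | a1 <;>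
        rcases Nat.lt_succ_iff_lt_or_eq.1 hj with a2 | a2
      · rw [e i a1, e j a2] at h4
        exact h1.inj i a1 j a2 h4
      · rw [e i a1, a2, e2] at h4
        exact absurd h4 (hnew i a1)
      · rw [e j a2, a1, e2] at h4
        exact absurd h4.symm (hnew j a2)
      · omega
    have hm : Function.update ψ (u + n) v (u + n) ∈ E := by rw [e2]; exact hv
    refine ⟨Function.update ψ (u + n) v, (h1.congr e).refine hG hi, tr_in (tr_congr e h2) hm, ?_⟩
    show sz _ (u + n + 1) E = _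
    rw [sz_succ, if_pos hm, sz_congr e, h3]
    rfl

theorem eq_of_tr (hi : Inj φ u) {E E' : Finset ℕ} {a : ℕ} (h : Tr φ u E a) (h' : Tr φ u E' a)
    (hs : sz φ u E = 4) (c : E.card = 4) (c' : E'.card = 4) : E = E' := by
  refine eq_of_subset_of_card_le (fun v hv => ?_) (by omega)
  obtain ⟨i, hi', rfl⟩ := full_mem hi (hs.trans c.symm) v hv
  exact ((h' i).1 ((h i).2 ⟨hi', hv⟩)).2

theorem Inv.add (hG : Hyp G) (h : Inv N G φ u F U k R C) {E : Finset ℕ} (hE : E ∈ R) {e : ℕ}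
    (he : Tr φ u E e) (hs : sz φ u E = 4) {C' : List Cand}
    (hC : ∀ c ∈ C, c.a &&& e ≠ 0 → c.a ≠ e → c ∈ C') :
    Inv N G φ u (e :: F) (cut U (cov N e 4)) (Nat.pred k) (R.erase E) C' := by
  have hEG := h.sub E hE
  refine ⟨h.inj, fun a ha => ?_, fun E' hE' => ?_, fun E' hE' => h.sub E' (mem_of_mem_erase hE'),
    ?_, fun E' hE' => ?_, fun hu p hp => ?_⟩
  · rcases List.mem_cons.1 ha with rfl | ha
    · exact ⟨E, hEG, he, hs⟩
    · exact h.ed a ha
  · by_cases h1 : E' = E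
    · exact Or.inr ⟨e, List.mem_cons_self, h1 ▸ he, h1 ▸ hs⟩
    · rcases h.spl E' hE' with h2 | ⟨a, ha, h2⟩
      · exact Or.inl (mem_erase.2 ⟨h1, h2⟩)
      · exact Or.inr ⟨a, List.mem_cons_of_mem _ ha, h2⟩
  · have := h.cd
    rw [card_erase_of_mem hE, Nat.pred_eq_sub_one]
    omega
  · obtain ⟨h1, h2⟩ := mem_erase.1 hE'
    obtain ⟨c, hc, h3⟩ := h.mt E' h2
    refine ⟨c, hC c hc (fun h0 => ?_) (fun h0 => ?_), h3⟩
    · obtain ⟨x, x1, x2⟩ := hG.2.1 E hEG E' (h.sub E' h2)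
      obtain ⟨i, hi, rfl⟩ := full_mem h.inj (hs.trans (hG.1 E hEG).symm) x x1
      have : (c.a &&& e).testBit i = true := by
        rw [Nat.testBit_and, (h3.1 i).2 ⟨hi, x2⟩, (he i).2 ⟨hi, x1⟩]; rfl
      rw [h0] at this
      simp at this
    · exact h1 (eq_of_tr h.inj he (h0 ▸ h3.1) hs (hG.1 E hEG) (hG.1 E' (h.sub E' h2))).symm
  · obtain ⟨a1, a2⟩ := cut_bit hp
    obtain ⟨a3, a4⟩ := h.un hu p a1
    refine ⟨a3, fun a ha => ?_⟩
    rcases List.mem_cons.1 ha with rfl | ha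
    · intro hc
      rw [cov_bit (lt_of_lt_of_le a3 (Nat.pow_le_pow_right (by norm_num) hu)) hc] at a2
      exact absurd a2 (by simp)
    · exact a4 a ha

theorem two_col (hi : Inj φ u) {E : Finset ℕ} (hc : E.card = 4) {a S : ℕ} (h : Tr φ u E a)
    (hn : ¬ Cv a (sz φ u E) S) :
    (∃ x ∈ E, x ∈ {v | ∃ i < u, φ i = v ∧ S.testBit i = true}) ∧
      ∃ y ∈ E, y ∉ {v | ∃ i < u, φ i = v ∧ S.testBit i = true} := by
  unfold Cv at hn
  rw [not_or] at hn
  obtain ⟨h1, h2⟩ := hn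
  constructor
  · push Not at h1
    obtain ⟨i, a1, a2⟩ := h1
    exact ⟨φ i, ((h i).1 a1).2, i, ((h i).1 a1).1, rfl, by simpa using a2⟩
  · by_cases h4 : sz φ u E = 4
    · have h3 : ¬ ∀ i, a.testBit i = true → S.testBit i = true := fun h3 => h2 ⟨h4, h3⟩
      push Not at h3
      obtain ⟨i, a1, a2⟩ := h3
      refine ⟨φ i, ((h i).1 a1).2, ?_⟩
      rintro ⟨j, hj, b1, b2⟩
      rw [hi j hj i ((h i).1 a1).1 b1] at b2
      exact a2 b2
    · have := sz_le hi E
      obtain ⟨v, hv, hnew⟩ := exists_new (φ := φ) (u := u) (E := E) (by omega)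
      refine ⟨v, hv, ?_⟩
      rintro ⟨j, hj, b1, -⟩
      exact hnew j hj b1

theorem Inv.escape (hG : Hyp G) (h : Inv N G φ u F U k R C) {S : ℕ} (hF : ∀ e ∈ F, ¬ Cv e 4 S)
    (hR : ∀ E ∈ R, ∃ a, Tr φ u E a ∧ ¬ Cv a (sz φ u E) S) : PropertyB G := by
  refine ⟨{v | ∃ i < u, φ i = v ∧ S.testBit i = true}, fun E hE => ?_⟩
  rcases h.spl E hE with h1 | ⟨e, he, h1, h2⟩
  · obtain ⟨a, a1, a2⟩ := hR E h1
    exact two_col h.inj (hG.1 E hE) a1 a2
  · exact two_col h.inj (hG.1 E hE) h1 (by rw [h2]; exact hF e he)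

theorem exc_bound (W th k : ℕ) (f : Finset ℕ → Cand) (l : List Cand) :
    ∀ R : Finset (Finset ℕ), (∀ E ∈ R, f E ∈ l) →
      (∀ E ∈ R, ∀ E' ∈ R, f E = f E' → (f E).s = 4 → E = E') → R.card ≤ k →
      ∑ E ∈ R, ((W &&& (f E).c) % 4095 - th) ≤ exc W th k l := by
  classical
  induction l with
  | nil =>
    intro R h _ _
    have : R = ∅ := eq_empty_of_forall_notMem fun E hE => by cases h E hE
    rw [this, sum_empty]
    exact Nat.zero_le _
  | cons c l ih =>
    intro R h1 h2 h3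
    have e : exc W th k (c :: l) = (if Nat.beq c.s 4 = true then (W &&& c.c) % 4095 - th
        else k * ((W &&& c.c) % 4095 - th)) + exc W th k l := by
      rw [← brec]; rfl
    rw [e, ← sum_filter_add_sum_filter_not R (fun E => f E = c)]
    refine Nat.add_le_add ?_ (ih _ (fun E hE => ?_)
      (fun E hE E' hE' => h2 E (mem_filter.1 hE).1 E' (mem_filter.1 hE').1)
      ((card_filter_le _ _).trans h3))
    · rw [sum_congr rfl (g := fun _ => (W &&& c.c) % 4095 - th)
        (fun E hE => by rw [(mem_filter.1 hE).2]), sum_const, smul_eq_mul]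
      split_ifs with h4
      · have : (R.filter (fun E => f E = c)).card ≤ 1 := card_le_one.2 fun E hE E' hE' =>
          h2 E (mem_filter.1 hE).1 E' (mem_filter.1 hE').1
            ((mem_filter.1 hE).2.trans (mem_filter.1 hE').2.symm)
            (by rw [(mem_filter.1 hE).2]; exact Nat.eq_of_beq_eq_true h4)
        exact (Nat.mul_le_mul_right _ this).trans (by rw [one_mul])
      · exact Nat.mul_le_mul_right _ ((card_filter_le _ _).trans h3)
    · rcases List.mem_cons.1 (h1 E (mem_filter.1 hE).1) with h5 | h5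
      · exact absurd h5 (mem_filter.1 hE).2
      · exact h5

theorem Inv.leaf (hG : Hyp G) (h : Inv N G φ u F U k R C) {th W tot : ℕ}
    (hW : ∀ m, ∑ S ∈ range m, dig W S ≤ tot) (ho : leafOk N u U k C th W tot = true) :
    PropertyB G := by
  classical
  unfold leafOk at ho
  simp only [Bool.and_eq_true] at ho
  obtain ⟨o1, o2, o3, o4⟩ := ho
  have hu : u ≤ N := Nat.le_of_ble_eq_true o1
  have ht : tot ≤ 4094 := Nat.le_of_ble_eq_true o2
  have hWU : W &&& U = W := Nat.eq_of_beq_eq_true o3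
  have hlt : k * th + exc W th k C + 1 ≤ W % 4095 := Nat.le_of_ble_eq_true o4
  have hb : ∀ p, W.testBit p = true → U.testBit p = true := fun p hp => by
    rw [← hWU, Nat.testBit_and, Bool.and_eq_true] at hp
    exact hp.2
  have hWlt : W < 2 ^ (12 * 2 ^ u) := Nat.lt_pow_two_of_testBit W fun p hp => by
    by_contra hc
    have := (h.un hu p (hb p (by simpa using hc))).1
    omega
  by_contra hP
  have hch : ∀ E : Finset ℕ, ∃ c : Cand, E ∈ R → c ∈ C ∧ Mt N φ u E c := fun E => by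
    by_cases hE : E ∈ R
    · obtain ⟨c, h1, h2⟩ := h.mt E hE
      exact ⟨c, fun _ => ⟨h1, h2⟩⟩
    · exact ⟨⟨0, 0, 0⟩, fun h1 => absurd h1 hE⟩
  choose f hf using hch
  have h1 : ∀ S ∈ range (2 ^ u), dig W S ≤ ∑ E ∈ R, dig (W &&& (f E).c) S := by
    intro S hS
    rcases Nat.eq_zero_or_pos (dig W S) with h0 | h0
    · omega
    · obtain ⟨r, hr⟩ := Nat.exists_testBit_of_ne_zero h0.ne'
      rw [dig_bit, Bool.and_eq_true, decide_eq_true_eq] at hr
      obtain ⟨a1, a2⟩ := h.un hu _ (hb _ hr.2)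
      have a3 : (12 * S + r) / 12 = S := by omega
      rw [a3] at a1 a2
      have a4 : ∃ E ∈ R, Cv (f E).a (f E).s S := by
        by_contra hc
        push Not at hc
        exact hP (h.escape hG a2 fun E hE =>
          ⟨(f E).a, (hf E hE).2.1, by rw [← (hf E hE).2.2.1]; exact hc E hE⟩)
      obtain ⟨E, hE, a5⟩ := a4
      refine le_trans (le_of_eq ?_) (single_le_sum (f := fun E => dig (W &&& (f E).c) S)
        (fun _ _ => Nat.zero_le _) hE)
      refine (dig_and_eq fun r' hr' => ?_).symm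
      have a6 : (12 * S + r') / 12 = S := by omega
      rw [(hf E hE).2.2.2]
      exact cov_bit (by
        rw [a6]; exact lt_of_lt_of_le a1 (Nat.pow_le_pow_right (by norm_num) hu)) (by
        rw [a6]; exact a5)
  have h2 : ∀ y, (W &&& y) % 4095 = ∑ S ∈ range (2 ^ u), dig (W &&& y) S := fun y =>
    mod_eq_sum (lt_of_le_of_lt Nat.and_le_left hWlt)
      ((sum_le_sum fun S _ => dig_and_le W y S).trans ((hW _).trans ht))
  have h3 : W % 4095 ≤ ∑ E ∈ R, (W &&& (f E).c) % 4095 := by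
    rw [mod_eq_sum hWlt ((hW _).trans ht), sum_congr rfl fun E _ => h2 (f E).c, sum_comm]
    exact sum_le_sum h1
  have h4 := exc_bound W th k f C R (fun E hE => (hf E hE).1) (fun E hE E' hE' e1 e2 =>
    eq_of_tr h.inj (hf E hE).2.1 (e1 ▸ (hf E' hE').2.1) ((hf E hE).2.2.1 ▸ e2)
      (hG.1 E (h.sub E hE)) (hG.1 E' (h.sub E' hE'))) h.cd
  have h5 : ∑ E ∈ R, (W &&& (f E).c) % 4095 ≤ ∑ E ∈ R, (th + ((W &&& (f E).c) % 4095 - th)) :=
    sum_le_sum fun E _ => by omega
  rw [sum_add_distrib, sum_const, smul_eq_mul] at h5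
  have h6 := Nat.mul_le_mul_right th h.cd
  omega

theorem Inv.forb (hG : Hyp G) (h : Inv N G φ u F U k R C) {g : ℕ × List ℕ} (hg : Dead g) {m : ℕ}
    (ho : forbOk g m u F = true) : PropertyB G := by
  unfold forbOk injOk at ho
  rw [Bool.and_eq_true] at ho
  obtain ⟨o1, o2⟩ := ho
  have a1 : ∀ i < g.1, mp m i < u ∧ ∀ j < i, mp m i ≠ mp m j := fun i hi => by
    have := allLt_iff o1 i hi
    rw [Bool.and_eq_true] at this
    refine ⟨Nat.le_of_ble_eq_true this.1, fun j hj e => ?_⟩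
    have b := allLt_iff this.2 j hj
    rw [e, Nat.beq_refl] at b
    exact absurd b (by simp)
  have a2 : ∀ i < g.1, ∀ j < g.1, mp m i = mp m j → i = j := fun i hi j hj e => by
    rcases lt_trichotomy i j with b | b | b
    · exact absurd e.symm ((a1 j hj).2 i b)
    · exact b
    · exact absurd e ((a1 i hi).2 j b)
  refine hg G hG (fun i => φ (mp m i))
    (fun i hi j hj e => a2 i hi j hj (h.inj _ (a1 i hi).1 _ (a1 j hj).1 e)) fun e he => ?_
  obtain ⟨E, hE, h1, -⟩ := h.ed _ (memN_iff.1 (allN_iff o2 e he))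
  refine ⟨E, hE, fun i hi => ⟨fun b => ((h1 _).1 ((img_bit _ _ _ _).2 ⟨i, hi, b, rfl⟩)).2,
    fun b => ?_⟩⟩
  obtain ⟨j, hj, b1, b2⟩ := (img_bit _ _ _ _).1 ((h1 _).2 ⟨(a1 i hi).1, b⟩)
  rw [← a2 j hj i hi b2]
  exact b1

theorem isNil_eq {l : List Cand} (h : isNil l = true) : l = [] := by
  cases l with
  | nil => rfl
  | cons a l => cases h

theorem chk_sound {L : List (ℕ × List ℕ)} (hL : AllDead L) (hG : Hyp G) (t : T) :
    ∀ (u : ℕ) (F : List ℕ) (U k : ℕ) (br rest : List Cand) (fl : Bool) (φ : ℕ → ℕ)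
      (R : Finset (Finset ℕ)), chk L N t u F U k br rest fl = true →
      Inv N G φ u F U k R (br ++ rest) →
      (fl = true → ∃ S, (∀ e ∈ F, ¬ Cv e 4 S) ∧ ∀ c ∈ rest, ¬ Cv c.a c.s S) → PropertyB G := by
  induction t with
  | nil =>
    intro u F U k br rest fl φ R hc h hf
    have e : (fl && isNil br) = true := hc
    rw [Bool.and_eq_true] at e
    obtain ⟨S, h1, h2⟩ := hf e.1
    rw [isNil_eq e.2, List.nil_append] at h
    refine h.escape hG h1 fun E hE => ?_
    obtain ⟨c, b1, b2, b3, -⟩ := h.mt E hE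
    exact ⟨c.a, b2, b3 ▸ h2 c b1⟩
  | leaf th n ws =>
    intro u F U k br rest fl φ R hc h _
    have e : (isNil br && leafOk N u U k rest th (decW ws n) (decT ws n)) = true := hc
    rw [Bool.and_eq_true] at e
    rw [isNil_eq e.1, List.nil_append] at h
    exact h.leaf hG (fun m => dec_sum ws m n) e.2
  | forb j m =>
    intro u F U k br rest fl φ R hc h _
    have e : Option.rec (motive := fun _ => Bool) false (fun g => forbOk g m u F) (getC L j)
      = true := hc
    cases hj : getC L j with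
    | none => rw [hj] at e; cases e
    | some g =>
      rw [hj] at e
      exact h.forb hG (hL.mem (getC_mem hj)) e
  | brn S t ih =>
    intro u F U k br rest fl φ R hc h _
    have e : (Nat.ble u N && (tb U (12 * S) &&
      chk L N t u F U k (sel (cv S) rest br) (unsel (cv S) rest) true)) = true := hc
    simp only [Bool.and_eq_true] at e
    obtain ⟨e1, e2, e3⟩ := e
    rw [tb_eq] at e2
    have a1 := (h.un (Nat.le_of_ble_eq_true e1) _ e2).2
    rw [Nat.mul_div_cancel_left S (by norm_num)] at a1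
    refine ih u F U k _ _ true φ R e3 (h.mono fun _ _ c hc' _ => ?_) fun _ => ⟨S, a1, fun c hc' hv => ?_⟩
    · rw [sel_eq, unsel_eq]
      simp only [List.mem_append, List.mem_filter] at hc' ⊢
      cases cv S c <;> simp <;> tauto
    · rw [unsel_eq, List.mem_filter, cv_of_Cv hv] at hc'
      exact absurd hc'.2 (by simp)
  | pick P t ih =>
    intro u F U k br rest fl φ R hc h hf
    have e : chk L N t u F U k (sel (fun c => tb P c.a) rest br)
      (unsel (fun c => tb P c.a) rest) fl = true := hc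
    refine ih u F U k _ _ fl φ R e (h.mono fun _ _ c hc' _ => ?_) fun h1 => ?_
    · rw [sel_eq, unsel_eq]
      simp only [List.mem_append, List.mem_filter] at hc' ⊢
      cases tb P c.a <;> simp <;> tauto
    · obtain ⟨S, b1, b2⟩ := hf h1
      refine ⟨S, b1, fun c hc' => b2 c ?_⟩
      rw [unsel_eq, List.mem_filter] at hc'
      exact hc'.1
  | cons t1 t2 ih1 ih2 =>
    intro u F U k br rest fl φ R hc h hf
    cases br with
    | nil => cases hc
    | cons c br =>
      have e : (Bool.rec (motive := fun _ => Bool)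
        (chk L N t1 (u + (4 - c.s)) (growA u c.a (4 - c.s) :: F)
          (cut (growU u U (4 - c.s)) (cov N (growA u c.a (4 - c.s)) 4)) (Nat.pred k) []
          (filt (growA u c.a (4 - c.s)) (growC N u (app (c :: br) rest) (4 - c.s)) []) false)
        (chk L N t1 u (c.a :: F) (cut U c.c) (Nat.pred k) [] (filt c.a br (filt c.a rest [])) false)
        (Nat.beq c.s 4) && chk L N t2 u F U k br rest fl) = true := hc
      rw [Bool.and_eq_true, brec] at e
      obtain ⟨e1, e2⟩ := e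
      by_cases hx : ∃ E ∈ R, Mt N φ u E c
      · obtain ⟨E, hE, m1, m2, m3⟩ := hx
        split_ifs at e1 with h4
        · have h5 : c.s = 4 := Nat.eq_of_beq_eq_true h4
          rw [m3, h5] at e1
          refine ih1 _ _ _ _ _ _ _ φ _ e1 (h.add hG hE m1 (m2 ▸ h5) fun d hd d1 d2 => ?_)
            (fun h0 => by cases h0)
          rw [List.nil_append]
          rcases List.mem_append.1 hd with b | b
          · rcases List.mem_cons.1 b with b | b
            · exact absurd (b ▸ rfl) d2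
            · exact mem_filt (Or.inl ⟨b, d1, d2⟩)
          · exact mem_filt (Or.inr (mem_filt (Or.inl ⟨b, d1, d2⟩)))
        · have h5 := sz_le h.inj E
          rw [hG.1 E (h.sub E hE)] at h5
          obtain ⟨ψ, g1, g2, g3⟩ := h.grow hG (h.sub E hE) m1 (4 - c.s) (by omega)
          rw [app_eq] at e1
          refine ih1 _ _ _ _ _ _ _ ψ _ e1 (g1.add hG hE g2 (by omega) fun d hd d1 d2 => ?_)
            (fun h0 => by cases h0)
          rw [List.nil_append]
          exact mem_filt (Or.inl ⟨hd, d1, d2⟩)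
      · refine ih2 u F U k br rest fl φ R e2 (h.mono fun E hE d hd hm => ?_) hf
        rw [List.cons_append] at hd
        rcases List.mem_cons.1 hd with b | b
        · exact absurd ⟨E, hE, b ▸ hm⟩ hx
        · exact b

theorem inv_start (hG : Hyp G) (hi : Inj φ u) (n : ℕ) (hn : n ≤ u) :
    Inv N G φ n [] (growU 0 4095 n) 24 G (growC N 0 [mk N 0 0] n) := by
  induction n with
  | zero =>
    refine ⟨fun i hi => (by omega), fun e he => (by cases he), fun E hE => Or.inl hE, fun _ h => h,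
      hG.2.2, fun E _ => ⟨mk N 0 0, List.mem_cons_self, fun i => ?_, rfl, rfl⟩,
      fun _ p hp => ⟨?_, fun e he => (by cases he)⟩⟩
    · show Nat.testBit 0 i = true ↔ _
      simp
    · by_contra hc
      have : (4095 : ℕ) < 2 ^ p :=
        lt_of_lt_of_le (by norm_num : 4095 < 2 ^ 12) (Nat.pow_le_pow_right (by norm_num) (by omega))
      have h2 : Nat.testBit 4095 p = true := hp
      rw [Nat.testBit_lt_two_pow this] at h2
      cases h2
  | succ n ih =>
    have := (ih (by omega)).refine hG (fun i a j b => hi i (by omega) j (by omega))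
    have e1 : growU 0 4095 (n + 1) = dbl (growU 0 4095 n) (0 + n) := rfl
    have e2 : growC N 0 [mk N 0 0] (n + 1) = refine N (0 + n) (growC N 0 [mk N 0 0] n) := rfl
    rw [e1, e2, Nat.zero_add]
    exact this

theorem inv_init (hG : Hyp G) (hi : Inj φ u) (F : List ℕ) (ho : initOk u F = true)
    (hF : ∀ e ∈ F, ∃ E ∈ G, ∀ i < u, (e.testBit i = true ↔ φ i ∈ E)) :
    ∃ R, Inv N G φ u F (initU N u F) (initK F) R (initC N u F) := by
  induction F with
  | nil => exact ⟨G, inv_start hG hi u le_rfl⟩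
  | cons e l ih =>
    have o : (Nat.ble (e + 1) (2 ^ u) && (Nat.beq (pc e u) 4 && (!(memN e l) && initOk u l)))
      = true := ho
    simp only [Bool.and_eq_true] at o
    obtain ⟨o1, o2, o3, o4⟩ := o
    obtain ⟨R, h⟩ := ih o4 fun a ha => hF a (List.mem_cons_of_mem _ ha)
    obtain ⟨E, hE, h1⟩ := hF e List.mem_cons_self
    have he : e < 2 ^ u := Nat.le_of_ble_eq_true o1
    have ht : Tr φ u E e := fun i => by
      by_cases hi' : i < u
      · rw [h1 i hi']; simp [hi']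
      · rw [Nat.testBit_lt_two_pow (lt_of_lt_of_le he (Nat.pow_le_pow_right (by norm_num) (by omega)))]
        simp [hi']
    have hs : sz φ u E = 4 := by
      rw [← Nat.eq_of_beq_eq_true o2, pc_eq]
      unfold sz
      rw [filter_congr fun i hi' => (h1 i (mem_range.1 hi')).symm]
    have hR : E ∈ R := by
      rcases h.spl E hE with h2 | ⟨a, ha, h2, -⟩
      · exact h2
      · have : a = e := Nat.eq_of_testBit_eq fun i => by
          rw [Bool.eq_iff_iff, h2 i, ht i]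
        rw [this, ← memN_iff] at ha
        rw [ha] at o3
        cases o3
    exact ⟨R.erase E, h.add hG hR ht hs fun c hc c1 c2 => mem_filt (Or.inl ⟨hc, c1, c2⟩)⟩

theorem sound {L : List (ℕ × List ℕ)} {g : ℕ × List ℕ} {t : T} (h : top L N g t = true)
    (hL : AllDead L) : Dead g := by
  intro G hG φ hi hF
  unfold top at h
  rw [Bool.and_eq_true] at h
  obtain ⟨R, h1⟩ := inv_init (N := N) hG hi g.2 h.1 hF
  exact chk_sound hL hG t _ _ _ _ _ _ _ φ R h.2 h1 (fun h0 => by cases h0)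

end Pool.Agent.Lib.MP_56b6c1_co
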