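import Pool.Agent.Lib.MP_56b6c1_co.Defs

namespace Pool.Agent.Lib.MP_56b6c1_co

/-- A reduced counterexample on the vertex set `Fin V`. -/
structure Valid (V : ℕ) (H : Finset (Finset (Fin V))) : Prop where
  card : H.card ≤ 24
  four : ∀ s ∈ H, s.card = 4
  meet : ∀ s ∈ H, ∀ t ∈ H, ∃ i, i ∈ s ∧ i ∈ t
  col : ∀ S : Finset (Fin V), ∃ s ∈ H, s ⊆ S ∨ Disjoint s S
  pair : ∀ i j : Fin V, ∃ s ∈ H, i ∈ s ∧ j ∈ s

end Pool.Agent.Lib.MP_56b6c1_co
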